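import Pool.Agent.Q170.PO.St
import Pool.Agent.Y226.ZP.TameEq
import Pool.Agent.Y226.ZP.Teich

/-!
Project PO (helper170), job PO-TAME (helper150): two tame relations bound the residue field.
-/

set_option autoImplicit false
set_option linter.unusedSectionVars false

open Polynomial

namespace Pool.Agent.Q150.PO

open Pool.Agent.Q170.PO Pool.Agent.Y226

section vl

variable {R : Type*} [CommRing R] (u : R)

lemma vl_mul (P Q : ℤ[X]) : vl (P * Q) u = vl P u * vl Q u := by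
  unfold vl
  exact eval₂_mul _ _

lemma vl_add (P Q : ℤ[X]) : vl (P + Q) u = vl P u + vl Q u := by
  unfold vl
  exact eval₂_add _ _

lemma vl_sub (P Q : ℤ[X]) : vl (P - Q) u = vl P u - vl Q u := by
  unfold vl
  exact eval₂_sub _

lemma vl_pow (P : ℤ[X]) (n : ℕ) : vl (P ^ n) u = vl P u ^ n := by
  unfold vl
  exact eval₂_pow _ _ _

lemma vl_C (a : ℤ) : vl (C a) u = (a : R) := by
  unfold vl
  rw [eval₂_C]
  rfl

lemma vl_expand (n : ℕ) (P : ℤ[X]) : vl (expand ℤ n P) u = vl P (u ^ n) := by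
  unfold vl
  rw [expand_eq_comp_X_pow, eval₂_comp, eval₂_X_pow]

lemma vl_eval (P : ℤ[X]) : vl P u = (P.map (Int.castRingHom R)).eval u := by
  unfold vl
  rw [eval_map]

/-- Taylor's formula -/
lemma vl_taylor (P : ℤ[X]) (h : R) :
    ∃ c : R, vl P (u + h) = vl P u + vl (derivative P) u * h + c * h ^ 2 := by
  obtain ⟨c, hc⟩ := (P.map (Int.castRingHom R)).binomExpansion u h
  refine ⟨c, ?_⟩
  rw [vl_eval, vl_eval, vl_eval, hc, derivative_map]

end vl

/-- the deviation from the Frobenius lift -/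
theorem exists_dl (p : ℕ) [hpf : Fact p.Prime] (P : ℤ[X]) :
    ∃ D : ℤ[X], expand ℤ p P = P ^ p + C (p : ℤ) * D := by
  have h1 : C (p : ℤ) ∣ expand ℤ p P - P ^ p := by
    rw [C_dvd_iff_dvd_coeff]
    intro i
    rw [← ZMod.intCast_zmod_eq_zero_iff_dvd _ p]
    have h2 : (expand ℤ p P - P ^ p).map (Int.castRingHom (ZMod p)) = 0 := by
      rw [Polynomial.map_sub, Polynomial.map_pow, map_expand, ZMod.expand_card, sub_self]
    have h3 := congrArg (fun q => q.coeff i) h2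
    simp only [coeff_map, coeff_zero] at h3
    exact h3
  obtain ⟨D, hD⟩ := h1
  exact ⟨D, by rw [← hD]; ring⟩

/-- the deviation from the Frobenius lift -/
noncomputable def dl (p : ℕ) [hpf : Fact p.Prime] (P : ℤ[X]) : ℤ[X] := (exists_dl p P).choose

theorem dl_spec (p : ℕ) [hpf : Fact p.Prime] (P : ℤ[X]) :
    expand ℤ p P = P ^ p + C (p : ℤ) * dl p P := (exists_dl p P).choose_spec

theorem dl_deg (p : ℕ) [hpf : Fact p.Prime] (P : ℤ[X]) {d : ℕ} (hd : P.natDegree ≤ d) :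
    (dl p P).natDegree ≤ d * p := by
  have hp0 : ((p : ℕ) : ℤ) ≠ 0 := by exact_mod_cast hpf.out.ne_zero
  have h1 : C (p : ℤ) * dl p P = expand ℤ p P - P ^ p := by
    rw [dl_spec p P]
    ring
  have h2 : (C (p : ℤ) * dl p P).natDegree = (dl p P).natDegree := natDegree_C_mul hp0
  rw [← h2, h1]
  refine (natDegree_sub_le _ _).trans (max_le ?_ ?_)
  · rw [natDegree_expand]
    exact Nat.mul_le_mul_right _ hd
  · refine natDegree_pow_le.trans ?_
    rw [mul_comm]
    exact Nat.mul_le_mul_right _ hd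

theorem dl_der (p : ℕ) [hpf : Fact p.Prime] (P : ℤ[X]) :
    derivative (rd p (dl p P)) = X ^ (p - 1) * derivative (rd p P) ^ p -
      rd p P ^ (p - 1) * derivative (rd p P) := by
  have hp0 : ((p : ℕ) : ℤ) ≠ 0 := by exact_mod_cast hpf.out.ne_zero
  have h := congrArg derivative (dl_spec p P)
  rw [derivative_expand, derivative_add, derivative_pow, derivative_C_mul] at h
  have h2 : C (p : ℤ) * (expand ℤ p (derivative P) * X ^ (p - 1) - P ^ (p - 1) * derivative P -
      derivative (dl p P)) = 0 := by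
    simp only [map_natCast] at h ⊢
    linear_combination h
  have h3 : derivative (dl p P) = expand ℤ p (derivative P) * X ^ (p - 1) -
      P ^ (p - 1) * derivative P := by
    rcases mul_eq_zero.1 h2 with h4 | h4
    · exact absurd (C_eq_zero.1 h4) hp0
    · exact (sub_eq_zero.1 h4).symm
  unfold rd
  rw [derivative_map, h3, Polynomial.map_sub, Polynomial.map_mul, Polynomial.map_mul,
    Polynomial.map_pow, Polynomial.map_pow, Polynomial.map_X, map_expand, ZMod.expand_card,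
    derivative_map]
  ring

section core

variable {R k : Type*} [CommRing R] [IsDomain R] [Field k] {p : ℕ} [hpf : Fact p.Prime]
  [CharP k p] (red : R →+* k)

/-- the Frobenius identity at a tame relation -/
theorem core_id (hp0 : (p : R) ≠ 0) (P Q g : ℤ[X]) (e ζ δ y : R) (m₁ z : ℤ) {f : ℕ} (hf : 0 < f)
    (he : e ^ p ^ f = e) (hζ : ζ ^ p ^ f = ζ) (ha : IsUnit (vl P (e + p * δ)))
    (H : vl P (e + p * δ) * (vl P (e + p * δ) * ζ - vl Q (e + p * δ)) =
      p * (z * m₁ * vl g (e + p * δ) * (vl Q (e + p * δ) - vl P (e + p * δ))) + p ^ 2 * y) :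
    vl Q (red e) ^ p * vl (dl p P) (red e) - vl P (red e) ^ p * vl (dl p Q) (red e) =
      (z * m₁ * vl g (red e) * (vl Q (red e) - vl P (red e)) - red δ * vl (wr P Q) (red e)) ^ p := by
  have hredp : red (p : R) = 0 := by rw [map_natCast]; exact CharP.cast_eq_zero k p
  have hredu : red (e + p * δ) = red e := by rw [map_add, map_mul, hredp, zero_mul, add_zero]
  obtain ⟨c₁, hc₁⟩ := vl_taylor e P (p * δ)
  obtain ⟨c₂, hc₂⟩ := vl_taylor e Q (p * δ)
  -- the value at `e`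
  obtain ⟨ai, hai⟩ := ha.exists_right_inv
  set a := vl P (e + p * δ) with haa
  set b := vl Q (e + p * δ) with hbb
  set gu := vl g (e + p * δ) with hgu
  set A := vl P e with hA
  set B := vl Q e with hB
  set A' := vl (derivative P) e with hA'
  set B' := vl (derivative Q) e with hB'
  have hx₁ : ∃ x₁ : R, ζ * A - B = p * x₁ := by
    refine ⟨ai * (z * m₁ * gu * (b - a) + p * y) - δ * (ζ * A' - B') -
      p * δ ^ 2 * (ζ * c₁ - c₂), ?_⟩
    have h1 : a * ζ - b = p * (ai * (z * m₁ * gu * (b - a) + p * y)) := by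
      linear_combination ai * H - (a * ζ - b) * hai
    linear_combination h1 - ζ * hc₁ + hc₂
  obtain ⟨x₁, hx₁⟩ := hx₁
  have h2 : a * (x₁ + δ * (ζ * A' - B') + p * (δ ^ 2 * (ζ * c₁ - c₂))) =
      z * m₁ * gu * (b - a) + p * y := by
    apply mul_left_cancel₀ hp0
    linear_combination H - a * hx₁ - a * ζ * hc₁ + a * hc₂
  have hra : red a = red A := by
    rw [hc₁, map_add, map_add, map_mul, map_mul, map_mul, hredp]
    simp [hredp]
  have hrb : red b = red B := by
    rw [hc₂, map_add, map_add, map_mul, map_mul, map_mul, hredp]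
    simp [hredp]
  have hrg : red gu = vl g (red e) := by
    rw [hgu, vl_map, hredu]
  have hζA : red ζ * red A = red B := by
    have := congrArg red hx₁
    rw [map_sub, map_mul, map_mul, hredp, zero_mul, sub_eq_zero] at this
    exact this
  have h3 := congrArg red h2
  simp only [map_mul, map_add, map_sub, map_pow, hredp, map_intCast, zero_mul, add_zero] at h3
  rw [hra, hrb, hrg] at h3
  -- the star
  have hstar : red A * red x₁ = z * m₁ * vl g (red e) * (red B - red A) -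
      red δ * (red A' * red B - red A * red B') := by
    linear_combination h3 - red δ * red A' * hζA
  -- the Frobenius lift
  obtain ⟨x₂, hx₂, hx₂'⟩ := frob_lift red (fun i : Fin 2 => if i = 0 then e else ζ) hf
    (by
      intro i
      fin_cases i
      · exact he
      · exact hζ) hp0
    (MvPolynomial.X 1 * Polynomial.aeval (MvPolynomial.X 0 : MvPolynomial (Fin 2) ℤ) P -
      Polynomial.aeval (MvPolynomial.X 0 : MvPolynomial (Fin 2) ℤ) Q) (x₁ := x₁) (by
      rw [map_sub, map_mul, MvPolynomial.aeval_X]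
      have e1 : ∀ S : ℤ[X], (MvPolynomial.aeval (fun i : Fin 2 => if i = 0 then e else ζ))
          (Polynomial.aeval (MvPolynomial.X 0 : MvPolynomial (Fin 2) ℤ) S) = vl S e := by
        intro S
        rw [← Polynomial.aeval_algHom_apply, MvPolynomial.aeval_X, if_pos rfl]
        rfl
      rw [e1, e1, if_neg (by decide)]
      exact hx₁)
  have hx₃ : ζ ^ p * vl P (e ^ p) - vl Q (e ^ p) = p * x₂ := by
    rw [← hx₂, map_sub, map_mul, MvPolynomial.aeval_X]
    have e1 : ∀ S : ℤ[X], (MvPolynomial.aeval (fun i : Fin 2 => (if i = 0 then e else ζ) ^ p))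
        (Polynomial.aeval (MvPolynomial.X 0 : MvPolynomial (Fin 2) ℤ) S) = vl S (e ^ p) := by
      intro S
      rw [← Polynomial.aeval_algHom_apply, MvPolynomial.aeval_X, if_pos rfl]
      rfl
    rw [e1, e1, if_neg (by decide)]
  have eP : vl P (e ^ p) = A ^ p + p * vl (dl p P) e := by
    rw [← vl_expand, dl_spec, vl_add, vl_mul, vl_pow, vl_C]
    simp [hA]
  have eQ : vl Q (e ^ p) = B ^ p + p * vl (dl p Q) e := by
    rw [← vl_expand, dl_spec, vl_add, vl_mul, vl_pow, vl_C]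
    simp [hB]
  rw [eP, eQ] at hx₃
  obtain ⟨c₃, hc₃⟩ := pow_expand_sq (p := p) (a := B) (b := x₁)
  have h4 : (ζ * A) ^ p = B ^ p + p ^ 2 * c₃ := by
    rw [← hc₃, ← hx₁]
    congr 1
    ring
  rw [mul_pow] at h4
  have h5 : x₂ = ζ ^ p * vl (dl p P) e - vl (dl p Q) e + p * c₃ := by
    apply mul_left_cancel₀ hp0
    linear_combination -hx₃ + h4
  have h6 := congrArg red h5
  rw [map_add, map_sub, map_mul, map_mul, map_pow, hredp, zero_mul, add_zero, hx₂', vl_map,
    vl_map] at h6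
  have rA : red A = vl P (red e) := by rw [hA, vl_map]
  have rB : red B = vl Q (red e) := by rw [hB, vl_map]
  have rA' : red A' = vl (derivative P) (red e) := by rw [hA', vl_map]
  have rB' : red B' = vl (derivative Q) (red e) := by rw [hB', vl_map]
  have hw : vl (wr P Q) (red e) = red A' * red B - red A * red B' := by
    unfold wr
    rw [vl_sub, vl_mul, vl_mul, rA, rB, rA', rB']
  rw [hw, ← rA, ← rB, ← hstar, mul_pow, h6, ← hζA, mul_pow]
  ring

end core

/-- the polynomial of the residue class -/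
noncomputable def TT (p : ℕ) [hpf : Fact p.Prime] (P Q P₂ Q₂ g : ℤ[X]) (m : ℤ) : ℤ[X] :=
  wr P₂ Q₂ ^ p * (Q ^ p * dl p P - P ^ p * dl p Q - (C m * g * (Q - P)) ^ p) -
    wr P Q ^ p * (Q₂ ^ p * dl p P₂ - P₂ ^ p * dl p Q₂ - (C m * g * (Q₂ - P₂)) ^ p)

lemma wr_deg (P Q : ℤ[X]) {d : ℕ} (hP : P.natDegree ≤ d) (hQ : Q.natDegree ≤ d) :
    (wr P Q).natDegree ≤ 2 * d := by
  unfold wr
  refine (natDegree_sub_le _ _).trans (max_le ?_ ?_)
  · refine natDegree_mul_le.trans ?_
    have := natDegree_derivative_le P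
    omega
  · refine natDegree_mul_le.trans ?_
    have := natDegree_derivative_le Q
    omega

lemma half_deg (p : ℕ) [hpf : Fact p.Prime] (P Q g : ℤ[X]) (m : ℤ) {d : ℕ}
    (hP : P.natDegree ≤ d) (hQ : Q.natDegree ≤ d) (hg : g.natDegree ≤ d) :
    (Q ^ p * dl p P - P ^ p * dl p Q - (C m * g * (Q - P)) ^ p).natDegree ≤ 2 * d * p := by
  have h1 : ∀ S T : ℤ[X], S.natDegree ≤ d → T.natDegree ≤ d →
      (S ^ p * dl p T).natDegree ≤ 2 * d * p := by
    intro S T hS hT
    refine natDegree_mul_le.trans ?_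
    have h2 := dl_deg p T hT
    have h3 : (S ^ p).natDegree ≤ p * d := natDegree_pow_le.trans (Nat.mul_le_mul_left _ hS)
    calc (S ^ p).natDegree + (dl p T).natDegree ≤ p * d + d * p := add_le_add h3 h2
      _ = 2 * d * p := by ring
  refine (natDegree_sub_le _ _).trans (max_le ?_ ?_)
  · exact (natDegree_sub_le _ _).trans (max_le (h1 _ _ hQ hP) (h1 _ _ hP hQ))
  · refine natDegree_pow_le.trans ?_
    have h2 : (C m * g * (Q - P)).natDegree ≤ 2 * d := by
      refine natDegree_mul_le.trans ?_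
      have h3 : (C m * g).natDegree ≤ d := (natDegree_C_mul_le m g).trans hg
      have h4 : (Q - P).natDegree ≤ d := (natDegree_sub_le _ _).trans (max_le hQ hP)
      omega
    calc p * (C m * g * (Q - P)).natDegree ≤ p * (2 * d) := Nat.mul_le_mul_left _ h2
      _ = 2 * d * p := by ring

lemma TT_deg (p : ℕ) [hpf : Fact p.Prime] (P Q P₂ Q₂ g : ℤ[X]) (m : ℤ) {d : ℕ}
    (hP : P.natDegree ≤ d) (hQ : Q.natDegree ≤ d) (hP₂ : P₂.natDegree ≤ d)
    (hQ₂ : Q₂.natDegree ≤ d) (hg : g.natDegree ≤ d) :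
    (TT p P Q P₂ Q₂ g m).natDegree ≤ 4 * d * p := by
  have h1 : ∀ S T : ℤ[X], S.natDegree ≤ 2 * d → T.natDegree ≤ 2 * d * p →
      (S ^ p * T).natDegree ≤ 4 * d * p := by
    intro S T hS hT
    refine natDegree_mul_le.trans ?_
    have h3 : (S ^ p).natDegree ≤ p * (2 * d) := natDegree_pow_le.trans (Nat.mul_le_mul_left _ hS)
    calc (S ^ p).natDegree + T.natDegree ≤ p * (2 * d) + 2 * d * p := add_le_add h3 hT
      _ = 4 * d * p := by ring
  unfold TT
  exact (natDegree_sub_le _ _).trans (max_le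
    (h1 _ _ (wr_deg _ _ hP₂ hQ₂) (half_deg p P Q g m hP hQ hg))
    (h1 _ _ (wr_deg _ _ hP hQ) (half_deg p P₂ Q₂ g m hP₂ hQ₂ hg)))

section charp

variable {p : ℕ} [hpf : Fact p.Prime]

lemma rd_wr (P Q : ℤ[X]) : rd p (wr P Q) = derivative (rd p P) * rd p Q -
    rd p P * derivative (rd p Q) := by
  unfold rd wr
  simp only [Polynomial.map_sub, Polynomial.map_mul, derivative_map]

lemma half_der (P Q g : ℤ[X]) (m : ℤ) :
    derivative (rd p (Q ^ p * dl p P - P ^ p * dl p Q - (C m * g * (Q - P)) ^ p)) =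
      X ^ (p - 1) * rd p (wr P Q) ^ p - (rd p P * rd p Q) ^ (p - 1) * rd p (wr P Q) := by
  have e1 : rd p (Q ^ p * dl p P - P ^ p * dl p Q - (C m * g * (Q - P)) ^ p) =
      rd p Q ^ p * rd p (dl p P) - rd p P ^ p * rd p (dl p Q) - rd p (C m * g * (Q - P)) ^ p := by
    unfold rd
    simp only [Polynomial.map_sub, Polynomial.map_mul, Polynomial.map_pow]
  rw [e1, derivative_sub, derivative_sub, derivative_mul, derivative_mul, der_pow_p, der_pow_p,
    der_pow_p, zero_mul, zero_mul, zero_add, zero_add, sub_zero, dl_der, dl_der, rd_wr]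
  have e2 : (derivative (rd p P) * rd p Q - rd p P * derivative (rd p Q)) ^ p =
      derivative (rd p P) ^ p * rd p Q ^ p - rd p P ^ p * derivative (rd p Q) ^ p := by
    rw [sub_pow_char, mul_pow, mul_pow]
  rw [e2]
  have e3 : ∀ x : (ZMod p)[X], x ^ p = x ^ (p - 1) * x := by
    intro x
    rw [← pow_succ, Nat.sub_add_cancel hpf.out.one_lt.le]
  rw [mul_pow, e3 (rd p Q), e3 (rd p P)]
  ring

lemma TT_ne (P Q P₂ Q₂ g : ℤ[X]) (m : ℤ) (hW : rd p (wr P Q) ≠ 0)
    (hpos : 0 < (rd p P₂).natDegree) (hsep : IsCoprime (rd p P₂) (derivative (rd p P₂)))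
    (h1 : IsCoprime (rd p P₂) (rd p Q₂)) (h2 : IsCoprime (rd p P₂) (rd p P))
    (h3 : IsCoprime (rd p P₂) (rd p Q)) : rd p (TT p P Q P₂ Q₂ g m) ≠ 0 := by
  intro h0
  have hcop : IsCoprime (rd p P₂) (rd p (wr P₂ Q₂)) := by
    rw [rd_wr]
    have := (hsep.mul_right h1).add_mul_left_right (-derivative (rd p Q₂))
    have e : derivative (rd p P₂) * rd p Q₂ + rd p P₂ * -derivative (rd p Q₂) =
        derivative (rd p P₂) * rd p Q₂ - rd p P₂ * derivative (rd p Q₂) := by ring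
    rwa [e] at this
  have hnu : ¬ IsUnit (rd p P₂) := by
    intro h
    have := natDegree_eq_zero_of_isUnit h
    omega
  have hW₂ : rd p (wr P₂ Q₂) ≠ 0 := by
    intro h
    rw [h, isCoprime_zero_right] at hcop
    exact hnu hcop
  have hd := congrArg derivative h0
  have e1 : rd p (TT p P Q P₂ Q₂ g m) = rd p (wr P₂ Q₂) ^ p *
      rd p (Q ^ p * dl p P - P ^ p * dl p Q - (C m * g * (Q - P)) ^ p) -
      rd p (wr P Q) ^ p *
      rd p (Q₂ ^ p * dl p P₂ - P₂ ^ p * dl p Q₂ - (C m * g * (Q₂ - P₂)) ^ p) := by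
    unfold TT rd
    rw [Polynomial.map_sub, Polynomial.map_mul, Polynomial.map_mul, Polynomial.map_pow,
      Polynomial.map_pow]
  rw [e1, derivative_sub, derivative_mul, derivative_mul, der_pow_p, der_pow_p, zero_mul,
    zero_mul, zero_add, zero_add, half_der, half_der, derivative_zero] at hd
  have e3 : ∀ x : (ZMod p)[X], x ^ p = x ^ (p - 1) * x := by
    intro x
    rw [← pow_succ, Nat.sub_add_cancel hpf.out.one_lt.le]
  have h4 : rd p (wr P Q) * rd p (wr P₂ Q₂) *
      (rd p (wr P Q) ^ (p - 1) * (rd p P₂ * rd p Q₂) ^ (p - 1) -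
        rd p (wr P₂ Q₂) ^ (p - 1) * (rd p P * rd p Q) ^ (p - 1)) = 0 := by
    rw [← hd, e3 (rd p (wr P Q)), e3 (rd p (wr P₂ Q₂))]
    ring
  have h5 : rd p (wr P Q) ^ (p - 1) * (rd p P₂ * rd p Q₂) ^ (p - 1) =
        rd p (wr P₂ Q₂) ^ (p - 1) * (rd p P * rd p Q) ^ (p - 1) := by
    rcases mul_eq_zero.1 h4 with h6 | h6
    · rcases mul_eq_zero.1 h6 with h7 | h7
      · exact absurd h7 hW
      · exact absurd h7 hW₂
    · exact sub_eq_zero.1 h6
  have hdvd : rd p P₂ ∣ rd p (wr P₂ Q₂) ^ (p - 1) * (rd p P * rd p Q) ^ (p - 1) := by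
    rw [← h5, mul_pow]
    have hp1 : p - 1 ≠ 0 := by
      have := hpf.out.two_le
      omega
    exact Dvd.dvd.mul_left (Dvd.dvd.mul_right (dvd_pow_self _ hp1) _) _
  have hc : IsCoprime (rd p P₂) (rd p (wr P₂ Q₂) ^ (p - 1) * (rd p P * rd p Q) ^ (p - 1)) :=
    (hcop.pow_right).mul_right ((h2.mul_right h3).pow_right)
  exact hnu (hc.isUnit_of_dvd' dvd_rfl hdvd)

end charp

/-- an element of bounded degree over the prime field -/
lemma fixed_of_root {k : Type} [Field k] {p : ℕ} [hpf : Fact p.Prime] [CharP k p] (x : k)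
    (T : ℤ[X]) (hT : rd p T ≠ 0) (hx : vl T x = 0) (N : ℕ) (hN : T.natDegree ≤ N) :
    x ^ p ^ N.factorial = x := by
  let _ : Algebra (ZMod p) k := ZMod.algebra k p
  have h1 : Polynomial.aeval x (rd p T) = 0 := by
    have h2 : Polynomial.aeval x (rd p T) = vl T x := by
      unfold rd vl
      rw [Polynomial.aeval_def, eval₂_map]
      congr 1
      exact RingHom.ext_int _ _
    rw [h2, hx]
  have hint : IsIntegral (ZMod p) x := (isAlgebraic_iff_isIntegral).1 ⟨rd p T, hT, h1⟩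
  have hdeg : (minpoly (ZMod p) x).natDegree ≤ N := by
    refine (natDegree_le_of_dvd (minpoly.dvd _ _ h1) hT).trans ?_
    exact (natDegree_map_le).trans hN
  have hpos : 0 < (minpoly (ZMod p) x).natDegree := minpoly.natDegree_pos hint
  set K := IntermediateField.adjoin (ZMod p) {x} with hK
  have hfin : FiniteDimensional (ZMod p) K := IntermediateField.adjoin.finiteDimensional hint
  have hfin' : Finite K := Module.finite_of_finite (ZMod p)
  let _ := Fintype.ofFinite K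
  have hcard : Fintype.card K = p ^ (minpoly (ZMod p) x).natDegree := by
    rw [Module.card_eq_pow_finrank (K := ZMod p) (V := K), ZMod.card,
      IntermediateField.adjoin.finrank hint]
  have h2 : x ^ p ^ (minpoly (ZMod p) x).natDegree = x := by
    have h3 := FiniteField.pow_card (⟨x, IntermediateField.mem_adjoin_simple_self _ x⟩ : K)
    rw [hcard] at h3
    exact congrArg Subtype.val h3
  obtain ⟨m, hm⟩ := Nat.dvd_factorial hpos hdeg
  rw [hm]
  exact fixed_mul h2 m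

section final

variable {C : Type} [NormedField C] [IsUltrametricDist C] {p : ℕ} [hpf : Fact p.Prime]

lemma vl_mem (S : Subring C) (P : ℤ[X]) {e : C} (he : e ∈ S) : vl P e ∈ S := by
  have h := vl_map S.subtype P ⟨e, he⟩
  rw [Subring.subtype_apply, Subring.subtype_apply] at h
  rw [← h]
  exact Subtype.property _

lemma coe_vl (P : ℤ[X]) (x : OO C) : ((vl P x : OO C) : C) = vl P (x : C) :=
  vl_map (OO C).subtype P x

lemma isUnit_OO {x : OO C} (h : ‖(x : C)‖ = 1) : IsUnit x := by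
  have hx0 : (x : C) ≠ 0 := norm_pos_iff.1 (by rw [h]; exact one_pos)
  refine IsUnit.of_mul_eq_one (⟨(x : C)⁻¹, by rw [mem_OO, norm_inv, h, inv_one]⟩ : OO C) ?_
  exact Subtype.ext (mul_inv_cancel₀ hx0)

/-- elements of small norm are multiples -/
lemma exists_mul {r : C} (hr0 : r ≠ 0) (hr : ‖r‖ ≤ 1) {x : OO C} (h : ‖(x : C)‖ ≤ ‖r‖) :
    ∃ y : OO C, x = ⟨r, hr⟩ * y := by
  have hr0' : 0 < ‖r‖ := norm_pos_iff.2 hr0
  refine ⟨⟨(x : C) / r, ?_⟩, ?_⟩
  · rw [mem_OO, norm_div, div_le_one hr0']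
    exact h
  · apply Subtype.ext
    change (x : C) = r * ((x : C) / r)
    field_simp

/-- the relation without denominators -/
lemma rel_OO (hp0 : 0 < ‖(p : C)‖) (P Q g : ℤ[X]) (u ζ : OO C) (m₁ z : ℤ)
    (hP : ‖(vl P (u : C))‖ = 1) (hQ : ‖vl Q (u : C)‖ = 1)
    (h : ‖vl P (u : C) / vl Q (u : C) * ζ - (1 + z * (p * m₁ * vl g (u : C) *
      ((vl P (u : C))⁻¹ - (vl Q (u : C))⁻¹)))‖ ≤ ‖(p : C)‖ ^ 2) :
    ∃ y : OO C, vl P u * (vl P u * ζ - vl Q u) =
      p * (z * m₁ * vl g u * (vl Q u - vl P u)) + p ^ 2 * y := by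
  have ha0 : vl P (u : C) ≠ 0 := norm_pos_iff.1 (by rw [hP]; exact one_pos)
  have hb0 : vl Q (u : C) ≠ 0 := norm_pos_iff.1 (by rw [hQ]; exact one_pos)
  have hpC : (p : C) ≠ 0 := norm_pos_iff.1 hp0
  set x : OO C := vl P u * (vl P u * ζ - vl Q u) -
    p * (z * m₁ * vl g u * (vl Q u - vl P u)) with hx
  have e1 : (x : C) = vl P (u : C) * vl Q (u : C) * (vl P (u : C) / vl Q (u : C) * ζ -
      (1 + z * (p * m₁ * vl g (u : C) * ((vl P (u : C))⁻¹ - (vl Q (u : C))⁻¹)))) := by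
    rw [hx]
    push_cast
    rw [coe_vl, coe_vl, coe_vl]
    field_simp
    ring
  have e2 : ‖(x : C)‖ ≤ ‖(p : C) ^ 2‖ := by
    rw [e1, norm_mul, norm_mul, hP, hQ, one_mul, one_mul, norm_pow]
    exact h
  have hp2 : ‖(p : C) ^ 2‖ ≤ 1 := npow_le (nnat p) 2
  obtain ⟨y, hy⟩ := exists_mul (pow_ne_zero 2 hpC) hp2 e2
  refine ⟨y, ?_⟩
  have e3 : (⟨(p : C) ^ 2, hp2⟩ : OO C) = (p : OO C) ^ 2 := by
    apply Subtype.ext
    push_cast
    rfl
  rw [e3] at hy
  rw [← hy, hx]
  ring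

/-- fixed elements with the same reduction are equal -/
lemma fixed_unique (hp1 : ‖(p : C)‖ < 1) {x y : C} {f : ℕ} (hf : 0 < f) (hx : x ^ p ^ f = x)
    (hy : y ^ p ^ f = y) (h : ‖x - y‖ < 1) : x = y := by
  have hxN := Nr_of_fixed hf hx
  have hyN := Nr_of_fixed hf hy
  have hpf1 : 1 < p ^ f := Nat.one_lt_pow hf.ne' hpf.out.one_lt
  -- x - y is divisible by all powers of p
  by_contra hne
  have hd : x - y ≠ 0 := sub_ne_zero.2 hne
  have hd0 : 0 < ‖x - y‖ := norm_pos_iff.2 hd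
  obtain ⟨r, hr, he⟩ := nadd_pow_prime hpf.out (x := y) (y := x - y) hyN.1 h.le f
  have e1 : y + (x - y) = x := by ring
  rw [e1, hx, hy] at he
  have e2 : x - y = (x - y) * ((x - y) ^ (p ^ f - 1) + p * y * r) := by
    have e3 : (x - y) ^ p ^ f = (x - y) * (x - y) ^ (p ^ f - 1) := by
      rw [← pow_succ', Nat.sub_add_cancel hpf1.le]
    rw [e3] at he
    linear_combination he
  have e3 : ‖(x - y) ^ (p ^ f - 1) + p * y * r‖ < 1 := by
    refine nadd_lt (npow_lt h (by omega)) ?_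
    refine lt_of_le_of_lt (nmul_le' (nmul_le' le_rfl hyN.1) hr) hp1
  have e4 := congrArg norm e2
  rw [norm_mul] at e4
  nlinarith

end final

theorem tame : S_TAME := by
  intro p d hp
  refine ⟨(4 * d * p + 2 * d).factorial, Nat.factorial_pos _, ?_⟩
  intro C _ _ _ _ _ _ hp0 hp1 P Q P₂ Q₂ g dP dQ dP₂ dQ₂ dg hW hpos hsep h21 h2P h2Q u e hu he
    hue nP nQ nP₂ nQ₂ m₁ z ζ₁ ζ₂ hζ₁ hζ₂ hr₁ hr₂
  obtain ⟨fe, hfe, hfe'⟩ := he
  obtain ⟨f₁, hf₁, hf₁'⟩ := hζ₁
  obtain ⟨f₂, hf₂, hf₂'⟩ := hζ₂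
  have hpC : (p : C) ≠ 0 := norm_pos_iff.1 hp0
  have heN := Nr_of_fixed hfe hfe'
  have hζ₁N := Nr_of_fixed hf₁ hf₁'
  have hζ₂N := Nr_of_fixed hf₂ hf₂'
  obtain ⟨k, _, _, red, hred⟩ := exists_residue (C := C) (p := p) hp1
  set eO : OO C := ⟨e, heN.1⟩ with heO
  set uO : OO C := ⟨u, hu⟩ with huO
  set ζ₁O : OO C := ⟨ζ₁, hζ₁N.1⟩ with hζ₁O
  set ζ₂O : OO C := ⟨ζ₂, hζ₂N.1⟩ with hζ₂O
  have hredp : red (p : OO C) = 0 := by rw [map_natCast]; exact CharP.cast_eq_zero k p
  have hpO : (p : OO C) ≠ 0 := by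
    intro h
    apply hpC
    have := congrArg Subtype.val h
    simpa using this
  have hrue : red uO = red eO := by
    rw [← sub_eq_zero, ← map_sub, hred]
    exact hue
  -- it is enough to know the reduction
  have hfin : ∀ T : ℤ[X], T.natDegree ≤ 4 * d * p + 2 * d → rd p T ≠ 0 → vl T (red eO) = 0 →
      e ^ p ^ (4 * d * p + 2 * d).factorial = e := by
    intro T hT hT0 hTe
    have h1 := fixed_of_root (red eO) T hT0 hTe _ hT
    refine fixed_unique hp1 hfe ?_ hfe' ?_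
    · rw [← pow_mul, mul_comm, pow_mul, hfe']
    · have h2 : red (eO ^ p ^ (4 * d * p + 2 * d).factorial - eO) = 0 := by
        rw [map_sub, map_pow, h1, sub_self]
      rw [hred] at h2
      exact h2
  by_cases hWe : vl (wr P Q) (red eO) = 0
  · exact hfin (wr P Q) ((wr_deg P Q dP dQ).trans (by omega)) hW hWe
  -- the relations
  obtain ⟨y₁, hy₁⟩ := rel_OO hp0 P Q g uO ζ₁O m₁ z nP nQ hr₁
  obtain ⟨y₂, hy₂⟩ := rel_OO hp0 P₂ Q₂ g uO ζ₂O m₁ z nP₂ nQ₂ hr₂
  have huP : IsUnit (vl P uO) := isUnit_OO (by rw [coe_vl]; exact nP)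
  have huP₂ : IsUnit (vl P₂ uO) := isUnit_OO (by rw [coe_vl]; exact nP₂)
  -- `u = e + p δ`
  obtain ⟨δ, hδ⟩ : ∃ δ : OO C, uO = eO + p * δ := by
    set h : OO C := uO - eO with hh
    have hredh : red h = 0 := by rw [hh, map_sub, hrue, sub_self]
    obtain ⟨c₁, hc₁⟩ := vl_taylor eO P h
    obtain ⟨c₂, hc₂⟩ := vl_taylor eO Q h
    have huh : eO + h = uO := by rw [hh]; ring
    rw [huh] at hc₁ hc₂
    obtain ⟨ai, hai⟩ := huP.exists_right_inv
    have hΦu : vl P uO * ζ₁O - vl Q uO = p * (ai * (z * m₁ * vl g uO * (vl Q uO - vl P uO) +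
        p * y₁)) := by
      linear_combination ai * hy₁ - (vl P uO * ζ₁O - vl Q uO) * hai
    have hΦe : red (vl P eO * ζ₁O - vl Q eO) = 0 := by
      have h1 := congrArg red hΦu
      rw [map_mul red (p : OO C), hredp, zero_mul, map_sub, map_mul, vl_map, vl_map, hrue] at h1
      rw [map_sub, map_mul, vl_map, vl_map]
      exact h1
    have hΦe' : ‖((vl P eO * ζ₁O - vl Q eO : OO C) : C)‖ ≤ ‖(p : C)‖ := by
      apply Nr_gap _ ((hred _).1 hΦe)
      push_cast
      rw [coe_vl, coe_vl]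
      exact sub_mem (mul_mem (vl_mem _ _ heN) hζ₁N) (vl_mem _ _ heN)
    obtain ⟨x₀, hx₀⟩ := exists_mul hpC (nnat p) hΦe'
    have e3 : (⟨(p : C), nnat p⟩ : OO C) = (p : OO C) := by
      apply Subtype.ext
      push_cast
      rfl
    rw [e3] at hx₀
    -- the derivative is a unit
    set U : OO C := (vl (derivative P) eO * ζ₁O - vl (derivative Q) eO) +
      h * (c₁ * ζ₁O - c₂) with hU
    have hUh : h * U = p * (ai * (z * m₁ * vl g uO * (vl Q uO - vl P uO) + p * y₁) - x₀) := by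
      rw [hU]
      linear_combination hΦu - hx₀ - ζ₁O * hc₁ + hc₂
    have hUred : red U ≠ 0 := by
      intro h0
      apply hWe
      have h1 : red U = vl (derivative P) (red eO) * red ζ₁O - vl (derivative Q) (red eO) := by
        rw [hU, map_add, map_mul red h, hredh, zero_mul, add_zero, map_sub, map_mul, vl_map,
          vl_map]
      rw [h1] at h0
      rw [map_sub, map_mul, vl_map, vl_map] at hΦe
      unfold wr
      rw [vl_sub, vl_mul, vl_mul]
      linear_combination vl P (red eO) * h0 - vl (derivative P) (red eO) * hΦe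
    have hUu : IsUnit U := by
      apply isUnit_OO
      refine le_antisymm U.2 (not_lt.1 fun h1 => hUred ((hred _).2 h1))
    obtain ⟨Ui, hUi⟩ := hUu.exists_right_inv
    refine ⟨(ai * (z * m₁ * vl g uO * (vl Q uO - vl P uO) + p * y₁) - x₀) * Ui, ?_⟩
    have h4 : h = p * ((ai * (z * m₁ * vl g uO * (vl Q uO - vl P uO) + p * y₁) - x₀) * Ui) := by
      linear_combination Ui * hUh - h * hUi
    rw [← h4, huh]
  rw [hδ] at hy₁ hy₂ huP huP₂
  -- common Frobenius exponent
  have he₁ : eO ^ p ^ (fe * f₁ * f₂) = eO := by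
    rw [mul_assoc]
    exact fixed_mul (Subtype.ext (by simpa using hfe')) _
  have hζ₁' : ζ₁O ^ p ^ (fe * f₁ * f₂) = ζ₁O := by
    have : fe * f₁ * f₂ = f₁ * (fe * f₂) := by ring
    rw [this]
    exact fixed_mul (Subtype.ext (by simpa using hf₁')) _
  have hζ₂' : ζ₂O ^ p ^ (fe * f₁ * f₂) = ζ₂O := by
    have : fe * f₁ * f₂ = f₂ * (fe * f₁) := by ring
    rw [this]
    exact fixed_mul (Subtype.ext (by simpa using hf₂')) _
  have hf0 : 0 < fe * f₁ * f₂ := Nat.mul_pos (Nat.mul_pos hfe hf₁) hf₂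
  have E1 := core_id red hpO P Q g eO ζ₁O δ y₁ m₁ z hf0 he₁ hζ₁' huP hy₁
  have E2 := core_id red hpO P₂ Q₂ g eO ζ₂O δ y₂ m₁ z hf0 he₁ hζ₂' huP₂ hy₂
  refine hfin (TT p P Q P₂ Q₂ g (z * m₁)) ((TT_deg p P Q P₂ Q₂ g (z * m₁) dP dQ dP₂ dQ₂ dg).trans
    (by omega)) (TT_ne P Q P₂ Q₂ g (z * m₁) hW hpos hsep h21 h2P h2Q) ?_
  unfold TT
  simp only [vl_sub, vl_mul, vl_pow, vl_C]
  rw [sub_pow_char, mul_pow (red δ)] at E1 E2
  push_cast
  linear_combination vl (wr P₂ Q₂) (red eO) ^ p * E1 - vl (wr P Q) (red eO) ^ p * E2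

end Pool.Agent.Q150.PO
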